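import Mathlib

set_option autoImplicit false
open scoped Pointwise

namespace Pool.Agent.Helper266.SD

/-- A finite subset of `ℤ ^ J` can be mapped to the integers without changing its number of
differences and without increasing its number of sums. -/
theorem transfer {J : Type} [Fintype J] [DecidableEq J] (B : Finset (J → ℤ)) :
    ∃ A : Finset ℤ, (A + A).card ≤ (B + B).card ∧ (B - B).card = (A - A).card := by
  classical
  let ex : J → ℕ := fun j => (Fintype.equivFin J j : ℕ)
  have hex : Function.Injective ex := by
    intro i j hij
    exact (Fintype.equivFin J).injective (Fin.ext hij)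
  let P : (J → ℤ) → (J → ℤ) → Polynomial ℤ := fun u v =>
    ∑ j, Polynomial.C (u j - v j) * Polynomial.X ^ (ex j)
  have hP : ∀ u v : J → ℤ, u ≠ v → P u v ≠ 0 := by
    intro u v huv h0
    apply huv
    funext j
    have h1 : (P u v).coeff (ex j) = 0 := by rw [h0]; simp
    have h2 : (P u v).coeff (ex j) = u j - v j := by
      simp only [P, Polynomial.finsetSum_coeff, Polynomial.coeff_C_mul, Polynomial.coeff_X_pow]
      rw [Finset.sum_eq_single j]
      · simp
      · intro i _ hij
        have : ex j ≠ ex i := fun h => hij (hex h.symm)
        simp [this]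
      · simp
    rw [h2] at h1
    linarith
  let F : Finset (J → ℤ) := B - B
  let R : Finset ℤ := (F ×ˢ F).biUnion fun p => (P p.1 p.2).roots.toFinset
  obtain ⟨M, hM⟩ := Infinite.exists_notMem_finset R
  let ψ : (J → ℤ) →+ ℤ :=
    { toFun := fun x => ∑ j, x j * M ^ (ex j)
      map_zero' := by simp
      map_add' := by
        intro x y
        simp only [Pi.add_apply, add_mul, Finset.sum_add_distrib] }
  have hinj : Set.InjOn ψ (F : Set (J → ℤ)) := by
    intro u hu v hv huv
    by_contra hne
    apply hM
    simp only [R, Finset.mem_biUnion]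
    refine ⟨(u, v), Finset.mem_product.2 ⟨hu, hv⟩, ?_⟩
    rw [Multiset.mem_toFinset, Polynomial.mem_roots (hP u v hne)]
    simp only [P, Polynomial.IsRoot.def, Polynomial.eval_finsetSum, Polynomial.eval_mul,
      Polynomial.eval_C, Polynomial.eval_pow, Polynomial.eval_X, sub_mul, Finset.sum_sub_distrib]
    have : ∑ j, u j * M ^ (ex j) = ∑ j, v j * M ^ (ex j) := huv
    linarith
  refine ⟨B.image ψ, ?_, ?_⟩
  · rw [← Finset.image_add]
    exact Finset.card_image_le
  · have himg : (B - B).image ψ = B.image ψ - B.image ψ :=
      Finset.image_image₂_distrib (map_sub ψ)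
    rw [← himg]
    exact (Finset.card_image_of_injOn hinj).symm

/-- Passing to two cosets of the kernel of `π`. -/
theorem coset_trick {V G : Type} [AddCommGroup V] [DecidableEq V] [AddCommGroup G] [Fintype G]
    [DecidableEq G] (hG : Function.Injective (fun e : G => e + e)) (π : V →+ G) (A D : Finset V)
    (h : ∀ d ∈ D, ∀ e : G, ∃ x ∈ A, ∃ y ∈ A, x - y = d ∧ π x = e) :
    ∃ A' : Finset V, D.card ≤ (A' - A').card * Fintype.card G ∧
      (A' + A').card * Fintype.card G ≤ 3 * (A + A).card := by
  classical
  -- a rich class of differences
  obtain ⟨g, hg⟩ : ∃ g : G, D.card ≤ (D.filter fun d => π d = g).card * Fintype.card G := by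
    by_contra hcon
    push Not at hcon
    have h1 : D.card = ∑ g : G, (D.filter fun d => π d = g).card :=
      Finset.card_eq_sum_card_fiberwise (f := π) (t := Finset.univ) (by intro x _; simp)
    have h2 : ∑ g : G, (D.filter fun d => π d = g).card * Fintype.card G
        < ∑ _g : G, D.card := by
      apply Finset.sum_lt_sum_of_nonempty
      · exact ⟨0, Finset.mem_univ _⟩
      · intro g _; exact hcon g
    rw [← Finset.sum_mul, ← h1, Finset.sum_const, Finset.card_univ, smul_eq_mul] at h2
    rw [mul_comm] at h2
    exact lt_irrefl _ h2
  let A' : G → Finset V := fun e => A.filter fun x => π x = e ∨ π x = e - g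
  have hdiff : ∀ e, (D.filter fun d => π d = g) ⊆ A' e - A' e := by
    intro e d hd
    rw [Finset.mem_filter] at hd
    obtain ⟨x, hx, y, hy, hxy, hπ⟩ := h d hd.1 e
    rw [Finset.mem_sub]
    refine ⟨x, ?_, y, ?_, hxy⟩
    · simp [A', hx, hπ]
    · have : π y = e - g := by
        have hy' : y = x - d := by rw [← hxy]; abel
        rw [hy', map_sub, hπ, hd.2]
      simp [A', hy, this]
  let S : G → Finset V := fun e =>
    (A + A).filter fun s => π s = e + e ∨ π s = e + e - g ∨ π s = (e - g) + (e - g)
  have hsum : ∀ e, A' e + A' e ⊆ S e := by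
    intro e s hs
    rw [Finset.mem_add] at hs
    obtain ⟨x, hx, y, hy, rfl⟩ := hs
    simp only [A', Finset.mem_filter] at hx hy
    simp only [S, Finset.mem_filter]
    refine ⟨Finset.add_mem_add hx.1 hy.1, ?_⟩
    rw [map_add]
    rcases hx.2 with h1 | h1 <;> rcases hy.2 with h2 | h2 <;> rw [h1, h2]
    · left; rfl
    · right; left; abel
    · right; left; abel
    · right; right; rfl
  have htot : ∑ e : G, (S e).card ≤ 3 * (A + A).card := by
    have hS : ∀ e, (S e).card ≤ ((A + A).filter fun s => π s = e + e).card +
        ((A + A).filter fun s => π s = e + e - g).card +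
        ((A + A).filter fun s => π s = (e - g) + (e - g)).card := by
      intro e
      simp only [S]
      rw [Finset.filter_or, Finset.filter_or]
      refine (Finset.card_union_le _ _).trans ?_
      rw [add_assoc]
      exact Nat.add_le_add_left (Finset.card_union_le _ _) _
    have hgen : ∀ f : G → G, Function.Injective f →
        ∑ e : G, ((A + A).filter fun s => π s = f e).card ≤ (A + A).card := by
      intro f hf
      rw [← Finset.card_biUnion]
      · apply Finset.card_le_card
        intro s hs
        rw [Finset.mem_biUnion] at hs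
        obtain ⟨e, _, hs⟩ := hs
        exact (Finset.mem_filter.1 hs).1
      · intro e _ e' _ hne
        rw [Function.onFun, Finset.disjoint_left]
        intro s hs hs'
        rw [Finset.mem_filter] at hs hs'
        exact hne (hf (hs.2.symm.trans hs'.2))
    have i1 := hgen (fun e => e + e) hG
    have i2 := hgen (fun e => e + e - g) (by
      intro a b hab
      exact hG (sub_left_injective hab))
    have i3 := hgen (fun e => (e - g) + (e - g)) (by
      intro a b hab
      exact sub_left_injective (hG hab))
    calc ∑ e : G, (S e).card ≤ ∑ e : G, (((A + A).filter fun s => π s = e + e).card +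
        ((A + A).filter fun s => π s = e + e - g).card +
        ((A + A).filter fun s => π s = (e - g) + (e - g)).card) :=
          Finset.sum_le_sum fun e _ => hS e
      _ ≤ 3 * (A + A).card := by
          rw [Finset.sum_add_distrib, Finset.sum_add_distrib]
          omega
  obtain ⟨e, he⟩ : ∃ e : G, (S e).card * Fintype.card G ≤ 3 * (A + A).card := by
    by_contra hcon
    push Not at hcon
    have h2 : ∑ _e : G, 3 * (A + A).card < ∑ e : G, (S e).card * Fintype.card G := by
      apply Finset.sum_lt_sum_of_nonempty
      · exact ⟨0, Finset.mem_univ _⟩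
      · intro g _; exact hcon g
    rw [Finset.sum_const, Finset.card_univ, smul_eq_mul] at h2
    have h2' : 3 * (A + A).card * Fintype.card G < (∑ e : G, (S e).card) * Fintype.card G := by
      rw [Finset.sum_mul]
      calc 3 * (A + A).card * Fintype.card G = Fintype.card G * (3 * (A + A).card) := by ring
        _ < _ := h2
    have h3 := lt_of_mul_lt_mul_right h2' (Nat.zero_le _)
    exact absurd htot (not_le.2 h3)
  refine ⟨A' e, ?_, ?_⟩
  · exact hg.trans (Nat.mul_le_mul_right _ (Finset.card_le_card (hdiff e)))
  · exact (Nat.mul_le_mul_right _ (Finset.card_le_card (hsum e))).trans he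

end Pool.Agent.Helper266.SD
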