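import Mathlib
import Pool.Agent.Helper266.SD

set_option autoImplicit false
open scoped Pointwise

namespace Pool.Agent.Helper266.SD

section simplex
variable (J : Type) [Fintype J] [DecidableEq J]

/-- nonnegative integer vectors with coordinate sum at most `L` -/
def natSimplex (L : ℕ) : Finset (J → ℕ) :=
  (Fintype.piFinset fun _ : J => Finset.range (L + 1)).filter fun x => ∑ j, x j ≤ L

variable {J}

theorem mem_natSimplex {L : ℕ} {x : J → ℕ} : x ∈ natSimplex J L ↔ ∑ j, x j ≤ L := by
  unfold natSimplex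
  rw [Finset.mem_filter, Fintype.mem_piFinset]
  constructor
  · exact fun h => h.2
  · intro h
    refine ⟨fun j => ?_, h⟩
    rw [Finset.mem_range, Nat.lt_succ_iff]
    exact (Finset.single_le_sum (f := x) (fun _ _ => Nat.zero_le _) (Finset.mem_univ j)).trans h

theorem card_natSimplex_le (L : ℕ) :
    (natSimplex J L).card ≤ 2 ^ (Fintype.card J + L) := by
  have h1 : ∑ x ∈ Fintype.piFinset (fun _ : J => Finset.range (L + 1)), ∏ j, (1 / 2 : ℝ) ^ (x j)
      ≤ 2 ^ (Fintype.card J) := by
    rw [← Finset.prod_univ_sum (fun _ : J => Finset.range (L + 1)) (fun _ i => (1 / 2 : ℝ) ^ i)]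
    calc ∏ _j : J, ∑ i ∈ Finset.range (L + 1), (1 / 2 : ℝ) ^ i ≤ ∏ _j : J, (2 : ℝ) := by
          apply Finset.prod_le_prod
          · intro j _; positivity
          · intro j _; exact sum_geometric_two_le _
      _ = 2 ^ (Fintype.card J) := by rw [Finset.prod_const, Finset.card_univ]
  have h2 : ((natSimplex J L).card : ℝ) * (1 / 2 : ℝ) ^ L ≤
      ∑ x ∈ Fintype.piFinset (fun _ : J => Finset.range (L + 1)), ∏ j, (1 / 2 : ℝ) ^ (x j) := by
    calc ((natSimplex J L).card : ℝ) * (1 / 2 : ℝ) ^ L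
        = ∑ _x ∈ natSimplex J L, (1 / 2 : ℝ) ^ L := by rw [Finset.sum_const, nsmul_eq_mul]
      _ ≤ ∑ x ∈ natSimplex J L, ∏ j, (1 / 2 : ℝ) ^ (x j) := by
          apply Finset.sum_le_sum
          intro x hx
          rw [Finset.prod_pow_eq_pow_sum]
          exact pow_le_pow_of_le_one (by norm_num) (by norm_num) (mem_natSimplex.1 hx)
      _ ≤ _ := by
          apply Finset.sum_le_sum_of_subset_of_nonneg
          · exact Finset.filter_subset _ _
          · intro x _ _; positivity
  have h3 : ((natSimplex J L).card : ℝ) ≤ 2 ^ (Fintype.card J + L) := by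
    have h4 := h2.trans h1
    rw [pow_add]
    have h5 : (1 / 2 : ℝ) ^ L * 2 ^ L = 1 := by rw [← mul_pow]; norm_num
    calc ((natSimplex J L).card : ℝ) = ((natSimplex J L).card : ℝ) * (1 / 2 : ℝ) ^ L * 2 ^ L := by
          rw [mul_assoc, h5, mul_one]
      _ ≤ 2 ^ (Fintype.card J) * 2 ^ L := by gcongr
  exact_mod_cast h3

/-- the simplex inside `ℤ ^ J` -/
def simplex (J : Type) [Fintype J] [DecidableEq J] (L : ℕ) : Finset (J → ℤ) :=
  (natSimplex J L).image fun x j => (x j : ℤ)

theorem mem_simplex {L : ℕ} {v : J → ℤ} :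
    v ∈ simplex J L ↔ ∃ x : J → ℕ, ∑ j, x j ≤ L ∧ (fun j => (x j : ℤ)) = v := by
  unfold simplex
  rw [Finset.mem_image]
  simp only [mem_natSimplex]

theorem card_simplex_add_le (L : ℕ) :
    (simplex J L + simplex J L).card ≤ 2 ^ (Fintype.card J + 2 * L) := by
  have h : simplex J L + simplex J L ⊆ simplex J (2 * L) := by
    intro v hv
    rw [Finset.mem_add] at hv
    obtain ⟨a, ha, b, hb, rfl⟩ := hv
    rw [mem_simplex] at ha hb ⊢
    obtain ⟨x, hx, rfl⟩ := ha
    obtain ⟨y, hy, rfl⟩ := hb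
    refine ⟨fun j => x j + y j, ?_, ?_⟩
    · rw [Finset.sum_add_distrib]; omega
    · funext j; simp
  calc (simplex J L + simplex J L).card ≤ (simplex J (2 * L)).card := Finset.card_le_card h
    _ ≤ (natSimplex J (2 * L)).card := Finset.card_image_le
    _ ≤ _ := card_natSimplex_le _

end simplex

section diffs
variable (I : Type) [Fintype I] [DecidableEq I]

/-- vectors with entries in `[-K, K]`, positive part of sum `a`, negative part of sum `b` -/
noncomputable def cls (K a b : ℕ) : Finset (I → ℤ) :=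
  (Fintype.piFinset fun _ : I => Finset.Icc (-(K : ℤ)) K).filter fun D =>
    ∑ i, (D i).toNat = a ∧ ∑ i, (-(D i)).toNat = b

variable {I}

theorem pigeon (K : ℕ) (r : ℝ) :
    ∃ a b : ℕ, (∑ j ∈ Finset.Icc (-(K : ℤ)) K, r ^ j.natAbs) ^ (Fintype.card I) ≤
      ((K * Fintype.card I + 1 : ℕ) : ℝ) ^ 2 * ((cls I K a b).card * r ^ (a + b)) := by
  classical
  set B : Finset (I → ℤ) := Fintype.piFinset fun _ : I => Finset.Icc (-(K : ℤ)) K with hB
  set M := K * Fintype.card I with hM
  have htot : (∑ j ∈ Finset.Icc (-(K : ℤ)) K, r ^ j.natAbs) ^ (Fintype.card I) =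
      ∑ D ∈ B, ∏ i, r ^ (D i).natAbs := by
    rw [hB, ← Finset.prod_univ_sum (fun _ : I => Finset.Icc (-(K : ℤ)) K)
      (fun _ j => r ^ j.natAbs), Finset.prod_const, Finset.card_univ]
  have hfib : ∑ D ∈ B, ∏ i, r ^ (D i).natAbs =
      ∑ p ∈ Finset.range (M + 1) ×ˢ Finset.range (M + 1),
        ((cls I K p.1 p.2).card * r ^ (p.1 + p.2) : ℝ) := by
    rw [← Finset.sum_fiberwise_of_maps_to
      (g := fun D : I → ℤ => (∑ i, (D i).toNat, ∑ i, (-(D i)).toNat))
      (t := Finset.range (M + 1) ×ˢ Finset.range (M + 1))]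
    · apply Finset.sum_congr rfl
      intro p _
      have hc : (cls I K p.1 p.2) =
          B.filter fun D => ((∑ i, (D i).toNat, ∑ i, (-(D i)).toNat) : ℕ × ℕ) = p := by
        unfold cls
        apply Finset.filter_congr
        intro D _
        rw [Prod.ext_iff]
      rw [hc, ← nsmul_eq_mul, ← Finset.sum_const]
      apply Finset.sum_congr rfl
      intro D hD
      rw [Finset.mem_filter] at hD
      rw [Finset.prod_pow_eq_pow_sum]
      congr 1
      have h1 := hD.2
      rw [Prod.ext_iff] at h1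
      rw [← h1.1, ← h1.2, ← Finset.sum_add_distrib]
      apply Finset.sum_congr rfl
      intro i _
      exact (Int.toNat_add_toNat_neg_eq_natAbs (D i)).symm
    · intro D hD
      rw [hB, Fintype.mem_piFinset] at hD
      rw [Finset.mem_product, Finset.mem_range, Finset.mem_range, Nat.lt_succ_iff,
        Nat.lt_succ_iff, hM]
      have hk : ∀ i, (D i).toNat ≤ K ∧ (-(D i)).toNat ≤ K := by
        intro i
        have := Finset.mem_Icc.1 (hD i)
        omega
      constructor
      · calc ∑ i, (D i).toNat ≤ ∑ _i : I, K := Finset.sum_le_sum fun i _ => (hk i).1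
          _ = K * Fintype.card I := by rw [Finset.sum_const, Finset.card_univ, smul_eq_mul, mul_comm]
      · calc ∑ i, (-(D i)).toNat ≤ ∑ _i : I, K := Finset.sum_le_sum fun i _ => (hk i).2
          _ = K * Fintype.card I := by rw [Finset.sum_const, Finset.card_univ, smul_eq_mul, mul_comm]
  by_contra hcon
  push Not at hcon
  rw [htot, hfib] at hcon
  set T := ∑ p ∈ Finset.range (M + 1) ×ˢ Finset.range (M + 1),
        ((cls I K p.1 p.2).card * r ^ (p.1 + p.2) : ℝ) with hT
  have h2 : ∑ p ∈ Finset.range (M + 1) ×ˢ Finset.range (M + 1),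
      ((M + 1 : ℕ) : ℝ) ^ 2 * ((cls I K p.1 p.2).card * r ^ (p.1 + p.2) : ℝ) <
      ∑ _p ∈ Finset.range (M + 1) ×ˢ Finset.range (M + 1), T := by
    apply Finset.sum_lt_sum_of_nonempty
    · exact ⟨(0, 0), by simp⟩
    · intro p _; exact hcon p.1 p.2
  rw [← Finset.mul_sum, Finset.sum_const, Finset.card_product, Finset.card_range, nsmul_eq_mul,
    ← hT] at h2
  have : ((M + 1 : ℕ) : ℝ) ^ 2 * T < ((M + 1 : ℕ) : ℝ) ^ 2 * T := by
    calc ((M + 1 : ℕ) : ℝ) ^ 2 * T < (((M + 1) * (M + 1) : ℕ) : ℝ) * T := h2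
      _ = _ := by push_cast; ring
  exact lt_irrefl _ this

end diffs

section rich
variable {β : Type} [Fintype β] [DecidableEq β]

/-- the quotient map, one cyclic group of odd order `m + 1` for each block of `m` coordinates -/
def quo (β : Type) (m : ℕ) : (β × Fin m → ℤ) →+ (β → ZMod (m + 1)) where
  toFun x b := ((∑ j : Fin m, ((j : ℤ) + 1) * x (b, j) : ℤ) : ZMod (m + 1))
  map_zero' := by funext b; simp
  map_add' x y := by
    funext b
    simp only [Pi.add_apply, mul_add, Finset.sum_add_distrib]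
    push_cast
    ring

/-- the vector with block weight `v` -/
def hit {m : ℕ} (v : β → ZMod (m + 1)) : β × Fin m → ℕ :=
  fun p => if (p.2 : ℕ) + 1 = (v p.1).val then 1 else 0

omit [DecidableEq β] in
theorem hit_sum {m : ℕ} (v : β → ZMod (m + 1)) : ∑ p, hit v p ≤ Fintype.card β := by
  rw [Fintype.sum_prod_type]
  calc ∑ b : β, ∑ j : Fin m, hit v (b, j) ≤ ∑ _b : β, 1 := by
        apply Finset.sum_le_sum
        intro b _
        unfold hit
        simp only
        rw [Finset.sum_ite, Finset.sum_const_zero, add_zero, Finset.sum_const, smul_eq_mul, mul_one]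
        rw [Finset.card_le_one]
        intro i hi j hj
        rw [Finset.mem_filter] at hi hj
        apply Fin.ext
        omega
    _ = Fintype.card β := by simp

omit [Fintype β] [DecidableEq β] in
theorem quo_hit {m : ℕ} (v : β → ZMod (m + 1)) :
    quo β m (fun p => (hit v p : ℤ)) = v := by
  funext b
  show ((∑ j : Fin m, ((j : ℤ) + 1) * (hit v (b, j) : ℤ) : ℤ) : ZMod (m + 1)) = v b
  unfold hit
  simp only
  have hval : (v b).val < m + 1 := ZMod.val_lt (v b)
  rcases Nat.eq_zero_or_pos (v b).val with h0 | hpos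
  · have hvb : v b = 0 := (ZMod.val_eq_zero (v b)).1 h0
    rw [Finset.sum_eq_zero]
    · rw [hvb]; simp
    · intro j _
      rw [if_neg (by omega)]
      simp
  · have hj : (v b).val - 1 < m := by omega
    rw [Finset.sum_eq_single (⟨(v b).val - 1, hj⟩ : Fin m)]
    · rw [if_pos (by simp; omega)]
      have h1 : ((((⟨(v b).val - 1, hj⟩ : Fin m) : ℕ) : ℤ) + 1) * ((1 : ℕ) : ℤ) = ((v b).val : ℤ) := by
        simp only [Nat.cast_one, mul_one]
        omega
      rw [h1]
      rw [Int.cast_natCast, ZMod.natCast_val, ZMod.cast_id]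
    · intro j _ hne
      rw [if_neg]
      · simp
      · intro h
        apply hne
        apply Fin.ext
        simp only
        omega
    · intro h
      exact absurd (Finset.mem_univ _) h

theorem rich {m s : ℕ} (D : β × Fin m → ℤ) (h1 : ∑ p, (D p).toNat = s)
    (h2 : ∑ p, (-(D p)).toNat = s) (e : β → ZMod (m + 1)) :
    ∃ x ∈ simplex (β × Fin m) (s + Fintype.card β), ∃ y ∈ simplex (β × Fin m) (s + Fintype.card β),
      x - y = D ∧ quo β m x = e := by
  set v : β → ZMod (m + 1) := e - quo β m (fun p => ((D p).toNat : ℤ)) with hv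
  have hh := hit_sum v
  refine ⟨fun p => (((D p).toNat + hit v p : ℕ) : ℤ), ?_, fun p => (((-(D p)).toNat + hit v p : ℕ) : ℤ),
    ?_, ?_, ?_⟩
  · rw [mem_simplex]
    refine ⟨fun p => (D p).toNat + hit v p, ?_, rfl⟩
    rw [Finset.sum_add_distrib, h1]
    omega
  · rw [mem_simplex]
    refine ⟨fun p => (-(D p)).toNat + hit v p, ?_, rfl⟩
    rw [Finset.sum_add_distrib, h2]
    omega
  · funext p
    simp only [Pi.sub_apply]
    push_cast
    have := Int.toNat_sub_toNat_neg (D p)
    omega
  · have : (fun p => (((D p).toNat + hit v p : ℕ) : ℤ)) =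
        (fun p => ((D p).toNat : ℤ)) + (fun p => (hit v p : ℤ)) := by
      funext p; simp
    rw [this, map_add, quo_hit, hv]
    abel

end rich

end Pool.Agent.Helper266.SD
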