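import Mathlib
import Pool.Agent.Helper266.SD2

set_option autoImplicit false
open scoped Pointwise

namespace Pool.Agent.Helper266.SD

/-- gluing two difference vectors, the second one negated -/
def glue {τ m : ℕ} (q : (Fin τ × Fin m → ℤ) × (Fin τ × Fin m → ℤ)) :
    (Bool × Fin τ) × Fin m → ℤ :=
  fun p => if p.1.1 then -(q.2 (p.1.2, p.2)) else q.1 (p.1.2, p.2)

theorem glue_injective {τ m : ℕ} : Function.Injective (glue (τ := τ) (m := m)) := by
  intro q q' h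
  have h1 : q.1 = q'.1 := by
    funext ⟨i, j⟩
    have := congrFun h ((false, i), j)
    simpa [glue] using this
  have h2 : q.2 = q'.2 := by
    funext ⟨i, j⟩
    have := congrFun h ((true, i), j)
    simpa [glue] using this
  exact Prod.ext h1 h2

theorem glue_sum {τ m : ℕ} (q : (Fin τ × Fin m → ℤ) × (Fin τ × Fin m → ℤ)) :
    ∑ p, (glue q p).toNat = ∑ i, (q.1 i).toNat + ∑ i, (-(q.2 i)).toNat := by
  rw [Fintype.sum_prod_type, Fintype.sum_prod_type, Fintype.sum_bool]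
  simp only [glue, if_true, Bool.false_eq_true, if_false]
  rw [Fintype.sum_prod_type, Fintype.sum_prod_type, add_comm]

theorem glue_sum_neg {τ m : ℕ} (q : (Fin τ × Fin m → ℤ) × (Fin τ × Fin m → ℤ)) :
    ∑ p, (-(glue q p)).toNat = ∑ i, (-(q.1 i)).toNat + ∑ i, (q.2 i).toNat := by
  rw [Fintype.sum_prod_type, Fintype.sum_prod_type, Fintype.sum_bool]
  simp only [glue, if_true, Bool.false_eq_true, if_false, neg_neg]
  rw [Fintype.sum_prod_type, Fintype.sum_prod_type, add_comm]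

theorem dbl_inj (β : Type) : Function.Injective (fun e : β → ZMod (1024 + 1) => e + e) := by
  intro e f h
  funext b
  have h1 : e b + e b = f b + f b := congrFun h b
  have key : ∀ x : ZMod (1024 + 1), 513 * (x + x) = x := by
    intro x
    have h2 : (1025 : ZMod (1024 + 1)) = 0 := by
      have := ZMod.natCast_self (1024 + 1)
      exact_mod_cast this
    calc 513 * (x + x) = 1025 * x + x := by ring
      _ = x := by rw [h2]; ring
  rw [← key (e b), ← key (f b), h1]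

/-- the combinatorial core -/
theorem core (τ K : ℕ) (r : ℝ) :
    ∃ (A : Finset ℤ) (s N : ℕ),
      (∑ j ∈ Finset.Icc (-(K : ℤ)) K, r ^ j.natAbs) ^ (τ * 1024) ≤
        ((K * (τ * 1024) + 1 : ℕ) : ℝ) ^ 2 * (N * r ^ s) ∧
      N ^ 2 ≤ (A - A).card * 1025 ^ (2 * τ) ∧
      (A + A).card * 1025 ^ (2 * τ) ≤ 3 * 2 ^ (2048 * τ + 2 * (s + 2 * τ)) := by
  classical
  obtain ⟨a, b, hab⟩ := pigeon (I := Fin τ × Fin 1024) K r
  have hcI : Fintype.card (Fin τ × Fin 1024) = τ * 1024 := by simp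
  rw [hcI] at hab
  set C := cls (Fin τ × Fin 1024) K a b with hC
  set D : Finset ((Bool × Fin τ) × Fin 1024 → ℤ) := (C ×ˢ C).image glue with hD
  have hcβ : Fintype.card (Bool × Fin τ) = 2 * τ := by simp
  have hrich : ∀ d ∈ D, ∀ e : (Bool × Fin τ) → ZMod (1024 + 1),
      ∃ x ∈ simplex ((Bool × Fin τ) × Fin 1024) (a + b + 2 * τ),
      ∃ y ∈ simplex ((Bool × Fin τ) × Fin 1024) (a + b + 2 * τ), x - y = d ∧
        quo (Bool × Fin τ) 1024 x = e := by
    intro d hd e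
    rw [hD, Finset.mem_image] at hd
    obtain ⟨q, hq, rfl⟩ := hd
    rw [Finset.mem_product, hC] at hq
    unfold cls at hq
    rw [Finset.mem_filter, Finset.mem_filter] at hq
    have h1 : ∑ p, (glue q p).toNat = a + b := by rw [glue_sum, hq.1.2.1, hq.2.2.2]
    have h2 : ∑ p, (-(glue q p)).toNat = a + b := by
      rw [glue_sum_neg, hq.1.2.2, hq.2.2.1, add_comm]
    have := rich (glue q) h1 h2 e
    rw [hcβ] at this
    exact this
  obtain ⟨A', hA1, hA2⟩ := coset_trick (dbl_inj _) (quo (Bool × Fin τ) 1024)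
    (simplex ((Bool × Fin τ) × Fin 1024) (a + b + 2 * τ)) D hrich
  have hcG : Fintype.card ((Bool × Fin τ) → ZMod (1024 + 1)) = 1025 ^ (2 * τ) := by
    rw [Fintype.card_fun, hcβ, ZMod.card]
  rw [hcG] at hA1 hA2
  obtain ⟨A, hs, hd⟩ := transfer A'
  refine ⟨A, a + b, C.card, ?_, ?_, ?_⟩
  · exact hab
  · have : D.card = C.card ^ 2 := by
      rw [hD, Finset.card_image_of_injective _ glue_injective, Finset.card_product, sq]
    rw [← this, ← hd]
    exact hA1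
  · calc (A + A).card * 1025 ^ (2 * τ) ≤ (A' + A').card * 1025 ^ (2 * τ) := by gcongr
      _ ≤ 3 * (simplex ((Bool × Fin τ) × Fin 1024) (a + b + 2 * τ) +
          simplex ((Bool × Fin τ) × Fin 1024) (a + b + 2 * τ)).card := hA2
      _ ≤ 3 * 2 ^ (Fintype.card ((Bool × Fin τ) × Fin 1024) + 2 * (a + b + 2 * τ)) := by
          gcongr
          exact card_simplex_add_le _
      _ = 3 * 2 ^ (2048 * τ + 2 * (a + b + 2 * τ)) := by
          congr 2
          rw [Fintype.card_prod, hcβ, Fintype.card_fin]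
          ring

theorem pow16 : (1331713 : ℝ) ≤ (1 + Real.sqrt 2) ^ 16 := by
  have h2 : Real.sqrt 2 ^ 2 = 2 := Real.sq_sqrt (by norm_num)
  have e2 : (1 + Real.sqrt 2) ^ 2 = 3 + 2 * Real.sqrt 2 := by nlinarith
  have e4 : (1 + Real.sqrt 2) ^ 4 = 17 + 12 * Real.sqrt 2 := by
    calc (1 + Real.sqrt 2) ^ 4 = ((1 + Real.sqrt 2) ^ 2) ^ 2 := by ring
      _ = _ := by rw [e2]; nlinarith
  have e8 : (1 + Real.sqrt 2) ^ 8 = 577 + 408 * Real.sqrt 2 := by
    calc (1 + Real.sqrt 2) ^ 8 = ((1 + Real.sqrt 2) ^ 4) ^ 2 := by ring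
      _ = _ := by rw [e4]; nlinarith
  have e16 : (1 + Real.sqrt 2) ^ 16 = 665857 + 470832 * Real.sqrt 2 := by
    calc (1 + Real.sqrt 2) ^ 16 = ((1 + Real.sqrt 2) ^ 8) ^ 2 := by ring
      _ = _ := by rw [e8]; nlinarith
  have hs : (1.414213562 : ℝ) ≤ Real.sqrt 2 := by
    apply Real.le_sqrt_of_sq_le
    norm_num
  rw [e16]
  nlinarith

theorem Zlow (r : ℝ) (hr0 : 0 < r) :
    (1 + r) * (1 - 2 * r ^ 16) ≤
      (∑ j ∈ Finset.Icc (-((15 : ℕ) : ℤ)) ((15 : ℕ) : ℤ), r ^ j.natAbs) * (1 - r) := by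
  have hZ : ∑ j ∈ Finset.Icc (-((15 : ℕ) : ℤ)) ((15 : ℕ) : ℤ), r ^ j.natAbs =
      1 + 2 * ∑ j ∈ Finset.range 15, r ^ (j + 1) := by
    have hI : Finset.Icc (-((15 : ℕ) : ℤ)) ((15 : ℕ) : ℤ) =
        (Finset.range 31).image (fun i : ℕ => (i : ℤ) - 15) := by
      ext x
      simp only [Finset.mem_Icc, Finset.mem_image, Finset.mem_range]
      constructor
      · intro hx
        exact ⟨(x + 15).toNat, by omega, by omega⟩
      · rintro ⟨i, hi, rfl⟩
        constructor <;> push_cast <;> omega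
    rw [hI, Finset.sum_image]
    · simp only [Finset.sum_range_succ, Finset.sum_range_zero]
      norm_num
      ring
    · intro i _ j _ hij
      simp only at hij
      omega
  have hgeo : (∑ j ∈ Finset.range 15, r ^ (j + 1)) * (1 - r) = r - r ^ 16 := by
    simp only [Finset.sum_range_succ, Finset.sum_range_zero]
    ring
  rw [hZ]
  have e1 : (1 + 2 * ∑ j ∈ Finset.range 15, r ^ (j + 1)) * (1 - r) =
      (1 - r) + 2 * (r - r ^ 16) := by
    rw [add_mul, mul_assoc, hgeo]; ring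
  rw [e1]
  have : 0 < r ^ 16 := by positivity
  nlinarith

/-- the truncated geometric sum with `K = 15` -/
theorem Zbound (n m : ℕ) (hn : n = m + 16) (hn2 : (n : ℝ) = 2048) :
    (5 / 4 : ℝ) * 1025 ^ 2 * (1 + Real.sqrt 2) ^ m ≤
    (∑ j ∈ Finset.Icc (-((15 : ℕ) : ℤ)) ((15 : ℕ) : ℤ), (Real.sqrt 2 - 1) ^ j.natAbs) ^ n := by
  have h16 := pow16
  set t := Real.sqrt 2 with ht
  have h2 : t ^ 2 = 2 := Real.sq_sqrt (by norm_num)
  have ht1 : 1 < t := by
    rw [ht, Real.lt_sqrt (by norm_num)]; norm_num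
  have ht2 : t < 1.5 := by
    rw [ht, Real.sqrt_lt' (by norm_num)]; norm_num
  set r := t - 1 with hr
  have hr0 : 0 < r := by linarith
  have hr1 : r < 1 := by linarith
  have hrt : (1 + t) * r = 1 := by rw [hr]; nlinarith
  have h1r : 0 < 1 - r := by linarith
  have hlow : (1 + t) * (1 - 2 * r ^ 16) ≤
      ∑ j ∈ Finset.Icc (-((15 : ℕ) : ℤ)) ((15 : ℕ) : ℤ), r ^ j.natAbs := by
    have h0 := Zlow r hr0
    rw [← mul_le_mul_iff_left₀ h1r]
    have e2 : (1 + t) * (1 - r) = 1 + r := by rw [hr]; nlinarith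
    have e3 : (1 + t) * (1 - 2 * r ^ 16) * (1 - r) = (1 + r) * (1 - 2 * r ^ 16) := by
      rw [← e2]; ring
    rw [e3]
    exact h0
  have hr16 : r ^ 16 * (1 + t) ^ 16 = 1 := by
    rw [← mul_pow, mul_comm, hrt, one_pow]
  have hr16' : r ^ 16 ≤ 1 / 1331713 := by
    rw [le_div_iff₀ (by norm_num)]
    calc r ^ 16 * 1331713 ≤ r ^ 16 * (1 + t) ^ 16 := by gcongr
      _ = 1 := hr16
  have hr16p : 0 < r ^ 16 := by positivity
  have hbern : (1 - 4096 * r ^ 16) ≤ (1 - 2 * r ^ 16) ^ n := by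
    have := one_add_mul_le_pow (a := -(2 * r ^ 16)) (by linarith) n
    calc (1 - 4096 * r ^ 16) = 1 + (n : ℝ) * (-(2 * r ^ 16)) := by rw [hn2]; ring
      _ ≤ (1 + -(2 * r ^ 16)) ^ n := this
      _ = _ := by rw [← sub_eq_add_neg]
  have hpos : (0 : ℝ) < 1 - 4096 * r ^ 16 := by
    have : 4096 * r ^ 16 ≤ 4096 * (1 / 1331713) := by gcongr
    have h' : (4096 : ℝ) * (1 / 1331713) < 1 := by norm_num
    linarith
  have hfin : (5 / 4 : ℝ) * 1025 ^ 2 ≤ (1 + t) ^ 16 * (1 - 4096 * r ^ 16) := by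
    calc (5 / 4 : ℝ) * 1025 ^ 2 ≤ 1331713 * (1 - 4096 * (1 / 1331713)) := by norm_num
      _ ≤ 1331713 * (1 - 4096 * r ^ 16) := by gcongr
      _ ≤ (1 + t) ^ 16 * (1 - 4096 * r ^ 16) := by gcongr
  have ht0 : (0 : ℝ) ≤ 1 + t := by linarith
  have hm : (0 : ℝ) ≤ (1 + t) ^ m := pow_nonneg ht0 m
  have h16p : (0 : ℝ) ≤ (1 + t) ^ 16 := pow_nonneg ht0 16
  calc (5 / 4 : ℝ) * 1025 ^ 2 * (1 + t) ^ m ≤
      ((1 + t) ^ 16 * (1 - 4096 * r ^ 16)) * (1 + t) ^ m := mul_le_mul_of_nonneg_right hfin hm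
    _ ≤ ((1 + t) ^ 16 * (1 - 2 * r ^ 16) ^ n) * (1 + t) ^ m :=
        mul_le_mul_of_nonneg_right (mul_le_mul_of_nonneg_left hbern h16p) hm
    _ = ((1 + t) * (1 - 2 * r ^ 16)) ^ n := by
        rw [mul_pow]
        have hsplit : (1 + t) ^ n = (1 + t) ^ 16 * (1 + t) ^ m := by
          rw [← pow_add, hn]
          congr 1
          omega
        rw [hsplit]
        generalize (1 + t) ^ m = X
        generalize (1 + t) ^ 16 = Y
        generalize (1 - 2 * r ^ 16) ^ n = W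
        ring
    _ ≤ _ := by
        apply pow_le_pow_left₀ _ hlow
        apply mul_nonneg ht0
        linarith

theorem many (τ : ℕ) (hτ : ((15 * (τ * 1024) + 1 : ℕ) : ℝ) ^ 4 * 6 < (5 / 4 : ℝ) ^ τ) :
    ∃ (A : Finset ℤ) (e : ℕ), 1 ≤ e ∧ (1 + Real.sqrt 2) ^ e < (A - A).card ∧
      (A + A).card ≤ 2 ^ e := by
  obtain ⟨A, s, N, h1, h2, h3⟩ := core τ 15 (Real.sqrt 2 - 1)
  obtain ⟨m, hm⟩ : ∃ m : ℕ, m = 2032 := ⟨_, rfl⟩
  obtain ⟨n, hn⟩ : ∃ n : ℕ, n = 2048 := ⟨_, rfl⟩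
  have hZ := Zbound n m (by omega) (by rw [hn]; norm_num)
  set Z := ∑ j ∈ Finset.Icc (-((15 : ℕ) : ℤ)) ((15 : ℕ) : ℤ), (Real.sqrt 2 - 1) ^ j.natAbs with hZdef
  set t := Real.sqrt 2 with ht
  set P : ℝ := ((15 * (τ * 1024) + 1 : ℕ) : ℝ) with hP
  have hP0 : 0 < P := by rw [hP]; positivity
  have ht2 : t ^ 2 = 2 := Real.sq_sqrt (by norm_num)
  have ht1 : 1 < t := by
    rw [ht, Real.lt_sqrt (by norm_num)]; norm_num
  have ht3 : t < 1.5 := by
    rw [ht, Real.sqrt_lt' (by norm_num)]; norm_num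
  have hrt : (t - 1) * (1 + t) = 1 := by nlinarith
  have hr0 : 0 < t - 1 := by linarith
  have h1t : 0 < 1 + t := by linarith
  refine ⟨A, m * τ + 2 * s + 2, by omega, ?_, ?_⟩
  · have hD : ((N : ℝ)) ^ 2 ≤ (A - A).card * 1025 ^ (2 * τ) := by exact_mod_cast h2
    have hZ0 : 0 ≤ Z := Finset.sum_nonneg fun j _ => pow_nonneg hr0.le _
    have hsq : Z ^ (n * τ) ≤ P ^ 4 * (N ^ 2 * ((t - 1) ^ s) ^ 2) := by
      calc Z ^ (n * τ) = (Z ^ (τ * 1024)) ^ 2 := by
            rw [← pow_mul]; congr 1; rw [hn]; omega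
        _ ≤ (P ^ 2 * (N * (t - 1) ^ s)) ^ 2 := by
            apply pow_le_pow_left₀ (pow_nonneg hZ0 _) h1
        _ = _ := by ring
    have hlow : ((5 / 4 : ℝ) * 1025 ^ 2 * (1 + t) ^ m) ^ τ ≤ Z ^ (n * τ) := by
      rw [pow_mul]
      exact pow_le_pow_left₀ (by positivity) hZ τ
    have hexp : ((5 / 4 : ℝ) * 1025 ^ 2 * (1 + t) ^ m) ^ τ =
        (5 / 4 : ℝ) ^ τ * (1 + t) ^ (m * τ) * 1025 ^ (2 * τ) := by
      rw [mul_pow, mul_pow, ← pow_mul, ← pow_mul]
      generalize (1 + t) ^ (m * τ) = X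
      ring
    have h4 : (5 / 4 : ℝ) ^ τ * (1 + t) ^ (m * τ) * 1025 ^ (2 * τ) ≤
        (P ^ 4 * ((A - A).card * ((t - 1) ^ s) ^ 2)) * 1025 ^ (2 * τ) := by
      calc (5 / 4 : ℝ) ^ τ * (1 + t) ^ (m * τ) * 1025 ^ (2 * τ)
          ≤ P ^ 4 * (N ^ 2 * ((t - 1) ^ s) ^ 2) := by rw [← hexp]; exact hlow.trans hsq
        _ ≤ P ^ 4 * (((A - A).card * 1025 ^ (2 * τ)) * ((t - 1) ^ s) ^ 2) := by gcongr
        _ = _ := by ring
    have h5 : (5 / 4 : ℝ) ^ τ * (1 + t) ^ (m * τ) ≤ P ^ 4 * ((A - A).card * ((t - 1) ^ s) ^ 2) :=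
      le_of_mul_le_mul_right h4 (by positivity)
    have h6 : (5 / 4 : ℝ) ^ τ * (1 + t) ^ (m * τ) * (1 + t) ^ (2 * s) ≤ P ^ 4 * (A - A).card := by
      have hone : ((t - 1) ^ s) ^ 2 * (1 + t) ^ (2 * s) = 1 := by
        rw [← pow_mul, mul_comm s 2, ← mul_pow, hrt, one_pow]
      calc (5 / 4 : ℝ) ^ τ * (1 + t) ^ (m * τ) * (1 + t) ^ (2 * s)
          ≤ (P ^ 4 * ((A - A).card * ((t - 1) ^ s) ^ 2)) * (1 + t) ^ (2 * s) := by gcongr
        _ = P ^ 4 * (A - A).card * (((t - 1) ^ s) ^ 2 * (1 + t) ^ (2 * s)) := by ring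
        _ = _ := by rw [hone, mul_one]
    have h7 : P ^ 4 * (6 * ((1 + t) ^ (m * τ) * (1 + t) ^ (2 * s))) < P ^ 4 * (A - A).card := by
      calc P ^ 4 * (6 * ((1 + t) ^ (m * τ) * (1 + t) ^ (2 * s)))
          = (P ^ 4 * 6) * ((1 + t) ^ (m * τ) * (1 + t) ^ (2 * s)) := by ring
        _ < (5 / 4 : ℝ) ^ τ * ((1 + t) ^ (m * τ) * (1 + t) ^ (2 * s)) := by gcongr
        _ = (5 / 4 : ℝ) ^ τ * (1 + t) ^ (m * τ) * (1 + t) ^ (2 * s) := by rw [mul_assoc]
        _ ≤ _ := h6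
    have h8 := lt_of_mul_lt_mul_left h7 (by positivity)
    have h9 : (1 + t) ^ 2 ≤ 6 := by nlinarith
    calc (1 + t) ^ (m * τ + 2 * s + 2) = (1 + t) ^ 2 * ((1 + t) ^ (m * τ) * (1 + t) ^ (2 * s)) := by
          rw [pow_add, pow_add]; ring
      _ ≤ 6 * ((1 + t) ^ (m * τ) * (1 + t) ^ (2 * s)) := by gcongr
      _ < _ := h8
  · have h4 : (A + A).card * 2 ^ (20 * τ) ≤ 2 ^ (m * τ + 2 * s + 2) * 2 ^ (20 * τ) := by
      calc (A + A).card * 2 ^ (20 * τ) = (A + A).card * 1024 ^ (2 * τ) := by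
            congr 1
            rw [show (1024 : ℕ) = 2 ^ 10 by norm_num, ← pow_mul]
            congr 1
            omega
        _ ≤ (A + A).card * 1025 ^ (2 * τ) := by gcongr; norm_num
        _ ≤ 3 * 2 ^ (2048 * τ + 2 * (s + 2 * τ)) := h3
        _ ≤ 2 ^ 2 * 2 ^ (2048 * τ + 2 * (s + 2 * τ)) := by gcongr; norm_num
        _ = 2 ^ (m * τ + 2 * s + 2) * 2 ^ (20 * τ) := by
            rw [← pow_add, ← pow_add, hm]
            congr 1
            omega
    exact Nat.le_of_mul_le_mul_right h4 (by positivity)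

theorem size400 : ((15 * (400 * 1024) + 1 : ℕ) : ℝ) ^ 4 * 6 < (5 / 4 : ℝ) ^ 400 := by
  have h : ((15 * (400 * 1024) + 1 : ℕ)) ^ 4 * 6 * 4 ^ 400 < 5 ^ 400 := by decide +kernel
  rw [div_pow, lt_div_iff₀ (by positivity)]
  exact_mod_cast h

theorem exists_set : ∃ A : Finset ℤ,
    Real.log (1 + Real.sqrt 2) / Real.log 2 <
      Real.log (A - A).card / Real.log (A + A).card := by
  obtain ⟨A, e, he, hD, hS⟩ := many 400 size400
  refine ⟨A, ?_⟩
  have ht1 : (1 : ℝ) < Real.sqrt 2 := by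
    rw [Real.lt_sqrt (by norm_num)]; norm_num
  have h1 : (1 : ℝ) < (1 + Real.sqrt 2) ^ e := one_lt_pow₀ (by linarith) (by omega)
  have hD1 : (1 : ℝ) < (A - A).card := h1.trans hD
  have hD1' : 1 < (A - A).card := by exact_mod_cast hD1
  have hne : A.Nonempty := by
    rw [Finset.nonempty_iff_ne_empty]
    rintro rfl
    simp at hD1'
  have hAS : A.card ≤ (A + A).card := Finset.card_le_card_add_self
  have hDA : (A - A).card ≤ A.card * A.card := Finset.card_sub_le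
  have hS2 : 1 < (A + A).card := by
    by_contra hcon
    have : A.card * A.card ≤ 1 * 1 := Nat.mul_le_mul (by omega) (by omega)
    omega
  have hl2 : 0 < Real.log 2 := Real.log_pos (by norm_num)
  have hlS : 0 < Real.log (A + A).card := Real.log_pos (by exact_mod_cast hS2)
  rw [div_lt_div_iff₀ hl2 hlS]
  have hlt : 0 < Real.log (1 + Real.sqrt 2) := Real.log_pos (by linarith)
  have hSle : Real.log (A + A).card ≤ e * Real.log 2 := by
    rw [← Real.log_pow]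
    apply Real.log_le_log (by positivity)
    exact_mod_cast hS
  have hDge : e * Real.log (1 + Real.sqrt 2) < Real.log (A - A).card := by
    rw [← Real.log_pow]
    exact Real.log_lt_log (by positivity) hD
  calc Real.log (1 + Real.sqrt 2) * Real.log (A + A).card
      ≤ Real.log (1 + Real.sqrt 2) * (e * Real.log 2) := by gcongr
    _ = (e * Real.log (1 + Real.sqrt 2)) * Real.log 2 := by ring
    _ < Real.log (A - A).card * Real.log 2 := by gcongr

theorem bdd : BddAbove {Real.log (A - A).card / Real.log (A + A).card | A : Finset ℤ} := by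
  refine ⟨2, ?_⟩
  rintro x ⟨A, rfl⟩
  rcases A.eq_empty_or_nonempty with rfl | hne
  · simp
  have hAS : A.card ≤ (A + A).card := Finset.card_le_card_add_self
  have hDA : (A - A).card ≤ A.card * A.card := Finset.card_sub_le
  have hDS : (A - A).card ≤ (A + A).card ^ 2 := by
    rw [sq]; exact hDA.trans (Nat.mul_le_mul hAS hAS)
  have hDpos : 0 < (A - A).card := Finset.card_pos.2 (hne.sub hne)
  have hlog : Real.log (A - A).card ≤ 2 * Real.log (A + A).card := by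
    have : Real.log (A - A).card ≤ Real.log (((A + A).card : ℝ) ^ 2) := by
      apply Real.log_le_log (by exact_mod_cast hDpos)
      exact_mod_cast hDS
    rwa [Real.log_pow] at this
  rcases (Real.log_natCast_nonneg (A + A).card).eq_or_lt with h0 | hpos
  · rw [← h0]; simp
  · rw [div_le_iff₀ hpos]; exact hlog

end Pool.Agent.Helper266.SD
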